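import Mathlib
import Pool.Agent.H84.PrekopaLeindler

/-!
# Smaller width partitions: symmetric Brunn–Minkowski and the averaging step
-/

set_option autoImplicit false

open MeasureTheory Set
open scoped ENNReal NNReal Pointwise

namespace Pool.Agent.H96.SWP

variable {E : Type*} [NormedAddCommGroup E] [InnerProductSpace ℝ E] [FiniteDimensional ℝ E]
  [MeasurableSpace E] [BorelSpace E]

/-- If all half differences of points of `G` lie in `K`, then `vol G ≤ vol K`. -/
theorem bm_sym {G K : Set E} (hG : MeasurableSet G) (hK : MeasurableSet K)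
    (h : ∀ x ∈ G, ∀ y ∈ G, (2:ℝ)⁻¹ • (x - y) ∈ K) : volume G ≤ volume K := by
  have hp := H84.pl_inner E (G.indicator 1) ((-G).indicator 1) (K.indicator 1)
    (measurable_one.indicator hG) (measurable_one.indicator hG.neg)
    (measurable_one.indicator hK) (by
      intro x y
      by_cases hx : x ∈ G
      · by_cases hy : y ∈ -G
        · have hm : (2:ℝ)⁻¹ • (x + y) ∈ K := by
            have := h x hx (-y) (by simpa using hy)
            rwa [sub_neg_eq_add] at this
          rw [indicator_of_mem hx, indicator_of_mem hy, indicator_of_mem hm]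
          simp
        · simp [hy]
      · simp [hx])
  rw [lintegral_indicator_one hG, lintegral_indicator_one hG.neg, lintegral_indicator_one hK,
    Measure.measure_neg] at hp
  by_contra hcon
  push Not at hcon
  have h1 : volume K ^ 2 < volume G * volume G := by
    rw [sq]
    exact ENNReal.mul_lt_mul hcon hcon
  exact absurd hp (not_le.mpr h1)

open Classical in
/-- Averaging: some translate of `D` contains a fair share of the points of `U`. -/
theorem exists_center {F D : Set E} (hF : IsCompact F) (hD : IsCompact D)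
    (hsym : ∀ x ∈ D, -x ∈ D) (U : Finset E) (hU : ∀ s ∈ U, s ∈ F) :
    ∃ t : E, (U.card : ℝ≥0∞) * volume D ≤
      ((U.filter (fun s => s - t ∈ D)).card : ℝ≥0∞) * volume (F + D) := by
  set cnt : E → ℕ := fun t => (U.filter (fun s => s - t ∈ D)).card with hcnt
  obtain ⟨t0, ht0⟩ : ∃ t0, ∀ t, cnt t ≤ cnt t0 := by
    have hfin : (range cnt).Finite := (Set.finite_Iic U.card).subset (by
      rintro _ ⟨t, rfl⟩
      exact Finset.card_filter_le _ _)
    obtain ⟨m, ⟨t0, rfl⟩, hm⟩ := Set.exists_max_image (range cnt) id hfin (range_nonempty cnt)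
    exact ⟨t0, fun t => hm _ (mem_range_self t)⟩
  refine ⟨t0, ?_⟩
  have hDm : MeasurableSet D := hD.measurableSet
  have hFD : IsCompact (F + D) := hF.add hD
  have hms : ∀ s : E, MeasurableSet ((fun t => s - t) ⁻¹' D) := fun s =>
    (measurable_const.sub measurable_id) hDm
  have e1 : ∀ s ∈ U, ∫⁻ t in F + D, ((fun t => s - t) ⁻¹' D).indicator (1 : E → ℝ≥0∞) t
      = volume D := by
    intro s hs
    rw [lintegral_indicator_one (hms s), Measure.restrict_apply (hms s)]
    have hsub : (fun t => s - t) ⁻¹' D ⊆ F + D := by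
      intro t ht
      have ht' : s - t ∈ D := ht
      refine ⟨s, hU s hs, -(s - t), hsym _ ht', ?_⟩
      simp
    rw [inter_eq_self_of_subset_left hsub]
    exact (Measure.measurePreserving_sub_left volume s).measure_preimage hDm.nullMeasurableSet
  have e2 : ∀ t : E, ∑ s ∈ U, ((fun t => s - t) ⁻¹' D).indicator (1 : E → ℝ≥0∞) t
      = (cnt t : ℝ≥0∞) := by
    intro t
    rw [hcnt]
    simp only [indicator_apply, mem_preimage, Pi.one_apply]
    rw [Finset.sum_ite]
    simp
  calc (U.card : ℝ≥0∞) * volume D
      = ∑ s ∈ U, ∫⁻ t in F + D, ((fun t => s - t) ⁻¹' D).indicator (1 : E → ℝ≥0∞) t := by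
        rw [Finset.sum_congr rfl e1]
        simp
    _ = ∫⁻ t in F + D, ∑ s ∈ U, ((fun t => s - t) ⁻¹' D).indicator (1 : E → ℝ≥0∞) t := by
        rw [lintegral_finsetSum]
        intro s _
        exact measurable_one.indicator (hms s)
    _ = ∫⁻ t in F + D, (cnt t : ℝ≥0∞) := by
        simp_rw [e2]
    _ ≤ ∫⁻ _ in F + D, (cnt t0 : ℝ≥0∞) := by
        apply lintegral_mono
        intro t
        simp only [Nat.cast_le]
        exact ht0 t
    _ = (cnt t0 : ℝ≥0∞) * volume (F + D) := by
        rw [setLIntegral_const]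

omit [InnerProductSpace ℝ E] [FiniteDimensional ℝ E] [MeasurableSpace E] [BorelSpace E] in
open Classical in
/-- Greedy covering. -/
theorem greedy {D : Set E} {S : Finset E} {q : ℝ} (hq1 : q ≤ 1)
    (h : ∀ U : Finset E, U ⊆ S → U.Nonempty → ∃ t : E,
      q * (U.card : ℝ) ≤ ((U.filter (fun s => s - t ∈ D)).card : ℝ)) (m : ℕ) :
    ∃ c : Fin m → E, ((S.filter (fun s => ∀ i, s - c i ∉ D)).card : ℝ) ≤ (1 - q) ^ m * S.card := by
  induction m with
  | zero =>
    refine ⟨fun _ => 0, ?_⟩
    simp only [pow_zero, one_mul]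
    exact_mod_cast Finset.card_filter_le _ _
  | succ m ih =>
    obtain ⟨c, hc⟩ := ih
    set U := S.filter (fun s => ∀ i, s - c i ∉ D) with hU
    rcases U.eq_empty_or_nonempty with h0 | h0
    · refine ⟨Fin.snoc c 0, ?_⟩
      have : S.filter (fun s => ∀ i : Fin (m + 1), s - (Fin.snoc c 0 : Fin (m + 1) → E) i ∉ D)
          = ∅ := by
        rw [← Finset.subset_empty, ← h0, hU]
        intro s hs
        rw [Finset.mem_filter] at hs ⊢
        refine ⟨hs.1, fun i => ?_⟩
        have := hs.2 i.castSucc
        simpa using this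
      rw [this]
      simp only [Finset.card_empty, Nat.cast_zero]
      have : (0:ℝ) ≤ 1 - q := by linarith
      positivity
    · obtain ⟨t, ht⟩ := h U (Finset.filter_subset _ _) h0
      refine ⟨Fin.snoc c t, ?_⟩
      have e : S.filter (fun s => ∀ i : Fin (m + 1), s - (Fin.snoc c t : Fin (m + 1) → E) i ∉ D)
          = U.filter (fun s => ¬ (s - t ∈ D)) := by
        ext s
        rw [hU, Finset.filter_filter, Finset.mem_filter, Finset.mem_filter]
        refine and_congr_right fun _ => ?_
        rw [Fin.forall_fin_succ']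
        simp
      have e2 : ((U.filter (fun s => s - t ∈ D)).card : ℝ)
          + ((U.filter (fun s => ¬ (s - t ∈ D))).card : ℝ) = U.card := by
        exact_mod_cast Finset.card_filter_add_card_filter_not (s := U) (fun s => s - t ∈ D)
      rw [e, pow_succ]
      have h1 : (0:ℝ) ≤ 1 - q := by linarith
      calc ((U.filter (fun s => ¬ (s - t ∈ D))).card : ℝ) ≤ (1 - q) * U.card := by linarith
        _ ≤ (1 - q) * ((1 - q) ^ m * S.card) := by gcongr
        _ = (1 - q) ^ m * (1 - q) * S.card := by ring

end Pool.Agent.H96.SWP
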