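import Pool.Agent.H96.SWP.Net

/-!
# Smaller width partitions: covering by translates of a multiple of the half difference body
-/

set_option autoImplicit false

open MeasureTheory Set
open scoped ENNReal NNReal Pointwise

namespace Pool.Agent.H96.SWP

variable {E : Type*} [NormedAddCommGroup E] [InnerProductSpace ℝ E] [FiniteDimensional ℝ E]
  [MeasurableSpace E] [BorelSpace E]

theorem toReal_smul_vol (C : Set E) {r : ℝ} (hr : 0 ≤ r) :
    (volume (r • C)).toReal = r ^ Module.finrank ℝ E * (volume C).toReal := by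
  rw [Measure.addHaar_smul, ENNReal.toReal_mul, ENNReal.toReal_ofReal (abs_nonneg _),
    abs_of_nonneg (pow_nonneg hr _)]

/-- Covering theorem. -/
theorem cover {F C : Set E} (hF : IsCompact F) (hFc : Convex ℝ F)
    (hFi : (interior F).Nonempty) (hC : C = (2:ℝ)⁻¹ • (F - F)) {δ ρ : ℝ} (hδ : 0 < δ)
    (hδ2 : δ ≤ 2) (hρ : 0 < ρ) (hρ1 : ρ ≤ 1) (m : ℕ)
    (hm : (Module.finrank ℝ E * Real.log (4 / δ)) *
      ((volume (F + C)).toReal / (volume C).toReal) / ρ ^ Module.finrank ℝ E < m) :
    ∃ c : Fin m → E, ∀ x ∈ F, ∃ i, x - c i ∈ (ρ + δ) • C := by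
  classical
  obtain ⟨hCk, hCc, hC0, hCs, hCv, hCF, hFD, hD⟩ := half_facts hF hFc hFi hC
  set n := Module.finrank ℝ E with hn
  have hCt : volume C < ⊤ := hCk.measure_lt_top
  have hFt : volume (F + C) < ⊤ := (hF.add hCk).measure_lt_top
  set V := (volume C).toReal with hV
  set W := (volume (F + C)).toReal with hW
  have hV0 : 0 < V := ENNReal.toReal_pos hCv.ne' hCt.ne
  have hVW : V ≤ W := ENNReal.toReal_mono hFt.ne hCF
  have hW0 : 0 < W := hV0.trans_le hVW
  have hWV : W ≤ 2 ^ n * V := by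
    have h1 : volume (F + C) ≤ ENNReal.ofReal (2 ^ n) * volume C := hFD.trans_eq hD
    have h2 := ENNReal.toReal_mono (ENNReal.mul_lt_top ENNReal.ofReal_lt_top hCt).ne h1
    rwa [ENNReal.toReal_mul, ENNReal.toReal_ofReal (by positivity)] at h2
  obtain ⟨S, hSF, hSn, hSc⟩ := exists_net hF hCk hCc hC0 hCs hCv hδ hδ2
  have hcard : (S.card : ℝ) ≤ (4 / δ) ^ n := by
    have h1 := ENNReal.toReal_mono hFt.ne hSc
    rw [ENNReal.toReal_mul, toReal_smul_vol C (by positivity), ← hn, ← hV, ← hW] at h1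
    simp only [ENNReal.toReal_natCast] at h1
    have h2 : (S.card : ℝ) * ((δ / 2) ^ n * V) ≤ 2 ^ n * V := h1.trans hWV
    have h3 : (S.card : ℝ) * (δ / 2) ^ n ≤ 2 ^ n := by
      have : (S.card : ℝ) * (δ / 2) ^ n * V ≤ 2 ^ n * V := by linarith
      exact le_of_mul_le_mul_right this hV0
    have h4 : (4 / δ) ^ n = 2 ^ n / (δ / 2) ^ n := by
      rw [← div_pow]
      congr 1
      field_simp
      norm_num
    rw [h4, le_div_iff₀ (by positivity)]
    exact h3
  set q : ℝ := ρ ^ n * V / W with hq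
  have hq0 : 0 < q := by positivity
  have hq1 : q ≤ 1 := by
    rw [hq, div_le_one hW0]
    calc ρ ^ n * V ≤ 1 * V := by
          gcongr
          exact pow_le_one₀ hρ.le hρ1
      _ = V := one_mul _
      _ ≤ W := hVW
  have hρC : ρ • C ⊆ C := by
    have := smul_sub_self hCc hC0 (r := ρ) (s := 1) hρ.le hρ1
    rwa [one_smul] at this
  obtain ⟨c, hc⟩ := greedy (D := ρ • C) (S := S) hq1 (by
    intro U hUS _
    obtain ⟨t, ht⟩ := exists_center hF (hCk.smul ρ) (by
      rintro _ ⟨x, hx, rfl⟩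
      exact ⟨-x, hCs x hx, by simp⟩) U (fun s hs => hSF s (hUS hs))
    refine ⟨t, ?_⟩
    have h1 : (U.card : ℝ≥0∞) * volume (ρ • C) ≤
        ((U.filter (fun s => s - t ∈ ρ • C)).card : ℝ≥0∞) * volume (F + C) :=
      ht.trans (mul_le_mul' le_rfl (measure_mono (add_subset_add_left hρC)))
    have h2 := ENNReal.toReal_mono (ENNReal.mul_lt_top (ENNReal.natCast_lt_top _) hFt).ne h1
    rw [ENNReal.toReal_mul, ENNReal.toReal_mul, toReal_smul_vol C hρ.le, ← hn, ← hV, ← hW] at h2
    simp only [ENNReal.toReal_natCast] at h2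
    rw [hq, div_mul_eq_mul_div, div_le_iff₀ hW0]
    linarith) m
  refine ⟨c, ?_⟩
  have hempty : S.filter (fun s => ∀ i, s - c i ∉ ρ • C) = ∅ := by
    rw [← Finset.card_eq_zero]
    by_contra hne
    have h1 : (1:ℝ) ≤ ((S.filter (fun s => ∀ i, s - c i ∉ ρ • C)).card : ℝ) := by
      exact_mod_cast Nat.one_le_iff_ne_zero.mpr hne
    have h2 : (1 - q) ^ m ≤ Real.exp (-(q * m)) := by
      calc (1 - q) ^ m ≤ (Real.exp (-q)) ^ m :=
            pow_le_pow_left₀ (by linarith) (Real.one_sub_le_exp_neg q) m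
        _ = Real.exp (-(q * m)) := by
            rw [← Real.exp_nat_mul]
            congr 1
            ring
    have h3 : (4 / δ) ^ n = Real.exp (n * Real.log (4 / δ)) := by
      rw [Real.exp_nat_mul, Real.exp_log (by positivity)]
    have h4 : n * Real.log (4 / δ) < q * m := by
      have h5 : n * Real.log (4 / δ) * (W / V) / ρ ^ n * q < m * q :=
        mul_lt_mul_of_pos_right hm hq0
      have h6 : n * Real.log (4 / δ) * (W / V) / ρ ^ n * q = n * Real.log (4 / δ) := by
        rw [hq]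
        field_simp
      rw [h6] at h5
      linarith
    have h7 : (1 - q) ^ m * (S.card : ℝ) < 1 := by
      calc (1 - q) ^ m * (S.card : ℝ) ≤ Real.exp (-(q * m)) * (4 / δ) ^ n := by
            apply mul_le_mul h2 hcard (by positivity) (by positivity)
        _ = Real.exp (n * Real.log (4 / δ) - q * m) := by
            rw [h3, ← Real.exp_add]
            congr 1
            ring
        _ < 1 := by
            rw [Real.exp_lt_one_iff]
            linarith
    linarith
  intro x hx
  obtain ⟨s, hs, hxs⟩ := hSn x hx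
  have h1 : ¬ ∀ i, s - c i ∉ ρ • C := by
    intro h
    have : s ∈ S.filter (fun s => ∀ i, s - c i ∉ ρ • C) := Finset.mem_filter.mpr ⟨hs, h⟩
    rw [hempty] at this
    simp at this
  push Not at h1
  obtain ⟨i, hi⟩ := h1
  refine ⟨i, ?_⟩
  rw [hCc.add_smul hρ.le hδ.le]
  refine ⟨s - c i, hi, x - s, hxs, ?_⟩
  simp only
  abel

end Pool.Agent.H96.SWP
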