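import Pool.Agent.H96.SWP.Bm

/-!
# Smaller width partitions: separated nets and the covering theorem
-/

set_option autoImplicit false

open MeasureTheory Set
open scoped ENNReal NNReal Pointwise

namespace Pool.Agent.H96.SWP

variable {E : Type*} [NormedAddCommGroup E] [InnerProductSpace ℝ E] [FiniteDimensional ℝ E]
  [MeasurableSpace E] [BorelSpace E]

omit [FiniteDimensional ℝ E] [MeasurableSpace E] [BorelSpace E] in
/-- membership in a multiple of a convex symmetric set -/
theorem sub_mem_smul {C : Set E} (hCc : Convex ℝ C) (hCs : ∀ x ∈ C, -x ∈ C) {r s : ℝ}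
    (hr : 0 ≤ r) (hs : 0 ≤ s) {x y : E} (hx : x ∈ r • C) (hy : y ∈ s • C) :
    x - y ∈ (r + s) • C := by
  rw [hCc.add_smul hr hs]
  obtain ⟨a, ha, rfl⟩ := hx
  obtain ⟨b, hb, rfl⟩ := hy
  refine ⟨r • a, ⟨a, ha, rfl⟩, s • (-b), ⟨-b, hCs b hb, rfl⟩, ?_⟩
  simp only [smul_neg]
  abel

omit [FiniteDimensional ℝ E] [MeasurableSpace E] [BorelSpace E] in
theorem smul_sub_self {C : Set E} (hCc : Convex ℝ C) (hC0 : (0:E) ∈ C) {r s : ℝ}
    (hr : 0 ≤ r) (hrs : r ≤ s) : r • C ⊆ s • C := by
  intro x hx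
  have h1 : s • C = r • C + (s - r) • C := by
    rw [← hCc.add_smul hr (by linarith)]
    congr 1
    ring
  rw [h1]
  exact ⟨x, hx, 0, ⟨0, hC0, by simp⟩, by simp⟩

/-- A finite separated net. -/
theorem exists_net {F C : Set E} (hF : IsCompact F) (hC : IsCompact C) (hCc : Convex ℝ C)
    (hC0 : (0:E) ∈ C) (hCs : ∀ x ∈ C, -x ∈ C) (hCv : 0 < volume C) {δ : ℝ} (hδ : 0 < δ)
    (hδ2 : δ ≤ 2) :
    ∃ S : Finset E, (∀ s ∈ S, s ∈ F) ∧ (∀ x ∈ F, ∃ s ∈ S, x - s ∈ δ • C) ∧
      (S.card : ℝ≥0∞) * volume ((δ / 2) • C) ≤ volume (F + C) := by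
  classical
  set B : Set E := (δ / 2) • C with hB
  have hBC : B ⊆ C := by
    have := smul_sub_self hCc hC0 (r := δ / 2) (s := 1) (by linarith) (by linarith)
    rwa [one_smul] at this
  have hBm : MeasurableSet B := (hC.smul (δ / 2)).measurableSet
  have hBv : 0 < volume B := by
    rw [hB, Measure.addHaar_smul]
    apply ENNReal.mul_pos _ hCv.ne'
    have : (0:ℝ) < |(δ / 2) ^ Module.finrank ℝ E| := by positivity
    exact (ENNReal.ofReal_pos.mpr this).ne'
  have hFC : volume (F + C) < ⊤ := (hF.add hC).measure_lt_top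
  have hBt : volume B < ⊤ := (measure_mono hBC).trans_lt hC.measure_lt_top
  let A : E → Set E := fun s => (fun x => x - s) ⁻¹' B
  have hAm : ∀ s, MeasurableSet (A s) := fun s => (measurable_id.sub measurable_const) hBm
  have hAv : ∀ s, volume (A s) = volume B := fun s =>
    (measurePreserving_sub_right volume s).measure_preimage hBm.nullMeasurableSet
  let P : ℕ → Prop := fun m => ∃ S : Finset E, S.card = m ∧ (∀ s ∈ S, s ∈ F) ∧
    (S : Set E).PairwiseDisjoint A
  have hbd : ∀ S : Finset E, (∀ s ∈ S, s ∈ F) → (S : Set E).PairwiseDisjoint A →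
      (S.card : ℝ≥0∞) * volume B ≤ volume (F + C) := by
    intro S hS hd
    have h1 : volume (⋃ s ∈ S, A s) = ∑ s ∈ S, volume (A s) :=
      measure_biUnion_finset hd fun s _ => hAm s
    have h2 : (⋃ s ∈ S, A s) ⊆ F + C := by
      intro x hx
      simp only [mem_iUnion] at hx
      obtain ⟨s, hs, hx⟩ := hx
      exact ⟨s, hS s hs, x - s, hBC hx, by simp⟩
    calc (S.card : ℝ≥0∞) * volume B = ∑ s ∈ S, volume (A s) := by
          simp [hAv]
      _ = volume (⋃ s ∈ S, A s) := h1.symm
      _ ≤ volume (F + C) := measure_mono h2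
  obtain ⟨m, hm, hmax⟩ : ∃ m, P m ∧ ∀ m', P m' → m' ≤ m := by
    have hfin : {m | P m}.Finite := by
      apply (Set.finite_Iic ⌊(volume (F + C) / volume B).toReal⌋₊).subset
      rintro m ⟨S, rfl, hS, hd⟩
      rw [mem_Iic]
      apply Nat.le_floor
      have h1 : (S.card : ℝ≥0∞) ≤ volume (F + C) / volume B := by
        rw [ENNReal.le_div_iff_mul_le (Or.inl hBv.ne') (Or.inl hBt.ne)]
        exact hbd S hS hd
      have h2 := ENNReal.toReal_mono (ENNReal.div_lt_top hFC.ne hBv.ne').ne h1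
      simpa using h2
    have hne : {m | P m}.Nonempty := ⟨0, ∅, rfl, by simp, by simp⟩
    obtain ⟨m, hm, h⟩ := Set.exists_max_image {m | P m} id hfin hne
    exact ⟨m, hm, h⟩
  obtain ⟨S, hcard, hS, hd⟩ := hm
  refine ⟨S, hS, ?_, hbd S hS hd⟩
  intro x hx
  by_contra hcon
  push Not at hcon
  have hxS : x ∉ S := by
    intro h
    apply hcon x h
    rw [sub_self]
    exact ⟨0, hC0, by simp⟩
  have hP : P (m + 1) := by
    refine ⟨insert x S, ?_, ?_, ?_⟩
    · rw [Finset.card_insert_of_notMem hxS, hcard]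
    · intro s hs
      rcases Finset.mem_insert.mp hs with rfl | h
      · exact hx
      · exact hS s h
    · rw [Finset.coe_insert]
      apply hd.insert
      intro s hs _
      rw [disjoint_left]
      intro y hy1 hy2
      have h1 : y - x ∈ (δ / 2) • C := hy1
      have h2 : y - s ∈ (δ / 2) • C := hy2
      have h3 := sub_mem_smul hCc hCs (by linarith) (by linarith) h2 h1
      rw [add_halves] at h3
      apply hcon s hs
      convert h3 using 1
      abel
  have := hmax _ hP
  omega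

/-- The half difference body. -/
theorem half_facts {F C : Set E} (hF : IsCompact F) (hFc : Convex ℝ F)
    (hFi : (interior F).Nonempty) (hC : C = (2:ℝ)⁻¹ • (F - F)) :
    IsCompact C ∧ Convex ℝ C ∧ (0:E) ∈ C ∧ (∀ x ∈ C, -x ∈ C) ∧ 0 < volume C ∧
      volume C ≤ volume (F + C) ∧ volume (F + C) ≤ volume (F - F) ∧
      volume (F - F) = ENNReal.ofReal (2 ^ Module.finrank ℝ E) * volume C := by
  obtain ⟨x0, hx0⟩ := hFi
  have hx0F : x0 ∈ F := interior_subset hx0
  have hFF : IsCompact (F - F) := by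
    rw [sub_eq_add_neg]
    exact hF.add hF.neg
  have hcomp : IsCompact C := by
    rw [hC]
    exact hFF.smul _
  have hconv : Convex ℝ C := by
    rw [hC]
    exact (hFc.sub hFc).smul _
  have h0 : (0:E) ∈ C := by
    rw [hC]
    exact ⟨0, ⟨x0, hx0F, x0, hx0F, by simp⟩, by simp⟩
  have hs : ∀ x ∈ C, -x ∈ C := by
    intro x hx
    rw [hC] at hx ⊢
    obtain ⟨_, ⟨a, ha, b, hb, rfl⟩, rfl⟩ := hx
    refine ⟨b - a, ⟨b, hb, a, ha, rfl⟩, ?_⟩
    simp only [← smul_neg]
    congr 1
    abel
  have hvF : 0 < volume F :=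
    (isOpen_interior.measure_pos volume ⟨x0, hx0⟩).trans_le (measure_mono interior_subset)
  have hvD : volume F ≤ volume (F - F) := by
    have h1 : (fun x => x - x0) '' F ⊆ F - F := by
      rintro _ ⟨x, hx, rfl⟩
      exact ⟨x, hx, x0, hx0F, rfl⟩
    calc volume F = volume ((fun x => x - x0) '' F) := by
          simp only [sub_eq_add_neg, image_add_right, measure_preimage_add_right]
      _ ≤ volume (F - F) := measure_mono h1
  have e : F - F = (2:ℝ) • C := by
    rw [hC, smul_smul]
    norm_num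
  have hvC : volume (F - F) = ENNReal.ofReal (2 ^ Module.finrank ℝ E) * volume C := by
    rw [e, Measure.addHaar_smul, abs_of_pos (by positivity)]
  have hCpos : 0 < volume C := by
    rw [pos_iff_ne_zero]
    intro h
    rw [h, mul_zero] at hvC
    rw [hvC] at hvD
    exact absurd (hvF.trans_le hvD) (lt_irrefl _)
  have hC1 : volume C ≤ volume (F + C) := by
    have h1 : (fun x => x0 + x) '' C ⊆ F + C := by
      rintro _ ⟨x, hx, rfl⟩
      exact ⟨x0, hx0F, x, hx, rfl⟩
    calc volume C = volume ((fun x => x0 + x) '' C) := by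
          simp only [image_add_left, measure_preimage_add]
      _ ≤ volume (F + C) := measure_mono h1
  have hC2 : volume (F + C) ≤ volume (F - F) := by
    apply bm_sym (hF.add hcomp).measurableSet hFF.measurableSet
    rintro _ ⟨f, hf, c, hc, rfl⟩ _ ⟨g, hg, d, hd, rfl⟩
    have h1 : (2:ℝ)⁻¹ • (f - g) ∈ C := by
      rw [hC]
      exact ⟨f - g, ⟨f, hf, g, hg, rfl⟩, rfl⟩
    have h2 : (2:ℝ)⁻¹ • (c - d) ∈ C := by
      have h3 := sub_mem_smul hconv hs (r := 1) (s := 1) (by norm_num) (by norm_num)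
        (x := c) (y := d) (by simpa using hc) (by simpa using hd)
      obtain ⟨z, hz, hz2⟩ := h3
      rw [← hz2]
      simp only
      rw [smul_smul]
      norm_num
      exact hz
    have h4 := sub_mem_smul hconv hs (r := 1) (s := 1) (by norm_num) (by norm_num)
      (x := (2:ℝ)⁻¹ • (f - g)) (y := -((2:ℝ)⁻¹ • (c - d))) (by simpa using h1)
      (by simpa using hs _ h2)
    rw [e]
    rw [one_add_one_eq_two, sub_neg_eq_add] at h4
    convert h4 using 1
    simp only [smul_sub, smul_add]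
    abel
  exact ⟨hcomp, hconv, h0, hs, hCpos, hC1, hC2, hvC⟩

end Pool.Agent.H96.SWP
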